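import Pool.Agent.Y882.GP.Defs

/-!
GP-EG: the discrepancy of `F(b) + k ≡ 0 (mod d)` in terms of characters (helper37).
-/

set_option autoImplicit false

namespace Pool.Agent.Y37.GP

open Finset Polynomial
open Pool.Agent.Helper112 Pool.Agent.Helper112.BLB Pool.Agent.Y882 Pool.Agent.Y882.GP

theorem cond_iff (F : ℤ[X]) (k : ℤ) {d b a : ℕ} (h : b ≡ a [MOD d]) :
    (b.Coprime d ∧ (d : ℤ) ∣ F.eval (b : ℤ) + k) ↔
      ((d : ℤ) ∣ F.eval (a : ℤ) + k ∧ a.Coprime d) := by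
  have h1 : b.Coprime d ↔ a.Coprime d := by
    rw [Nat.coprime_iff_gcd_eq_one, Nat.coprime_iff_gcd_eq_one, h.gcd_eq]
  have h2 : (d : ℤ) ∣ F.eval (b : ℤ) - F.eval (a : ℤ) := by
    refine dvd_trans ?_ (Polynomial.sub_dvd_eval_sub (b : ℤ) (a : ℤ) F)
    exact (Nat.modEq_iff_dvd.1 h.symm)
  have h3 : (d : ℤ) ∣ F.eval (b : ℤ) + k ↔ (d : ℤ) ∣ F.eval (a : ℤ) + k := by
    have h4 : F.eval (b : ℤ) + k = (F.eval (b : ℤ) - F.eval (a : ℤ)) + (F.eval (a : ℤ) + k) := by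
      ring
    rw [h4]
    exact dvd_add_right h2
  rw [h1, h3, and_comm]

theorem sum_rt (F : ℤ[X]) (X : ℕ) (α : ℕ → ℝ) (k : ℤ) (d : ℕ) (hd : 0 < d) :
    (∑ b ∈ (Icc 1 X).filter (fun b : ℕ => b.Coprime d ∧ (d : ℤ) ∣ F.eval (b : ℤ) + k), α b) =
      ∑ a ∈ Rt F k d, ∑ b ∈ (Icc 1 X).filter (fun b => b ≡ a [MOD d]), α b := by
  classical
  rw [← Finset.sum_fiberwise_of_maps_to (t := Rt F k d) (g := fun b => b % d)]
  · refine sum_congr rfl fun a ha => ?_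
    rw [Rt, mem_filter, mem_range] at ha
    apply sum_congr _ fun _ _ => rfl
    ext b
    simp only [mem_filter]
    constructor
    · rintro ⟨⟨h1, h2⟩, h3⟩
      exact ⟨h1, by rw [Nat.ModEq, h3, Nat.mod_eq_of_lt ha.1]⟩
    · rintro ⟨h1, h2⟩
      refine ⟨⟨h1, (cond_iff F k h2).2 ha.2⟩, ?_⟩
      rw [← Nat.mod_eq_of_lt ha.1]
      exact h2
  · intro b hb
    rw [mem_filter] at hb
    rw [Rt, mem_filter, mem_range]
    exact ⟨Nat.mod_lt _ hd, (cond_iff F k (Nat.mod_modEq b d).symm).1 hb.2⟩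

theorem eg : St_EG := by
  classical
  intro F X α k d _
  have hd : 0 < d := Nat.pos_of_ne_zero (NeZero.ne d)
  have h1 : Eg F X α k d = ∑ a ∈ Rt F k d, Ed X α d a := by
    unfold Eg Ed
    rw [sum_sub_distrib, sum_const, nsmul_eq_mul]
    congr 1
    · convert sum_rt F X α k d hd
    · rw [rs]; ring
  rw [h1, Complex.ofReal_sum, sum_congr rfl fun a ha => ed_char X α d a (by
    rw [Rt, mem_filter] at ha
    exact ha.2.2), ← mul_sum, sum_comm]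
  congr 1
  refine sum_congr rfl fun χ _ => ?_
  rw [← sum_mul, tw]

end Pool.Agent.Y37.GP
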